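import Pool.Agent.H11.Venn.Final

/-!
# Two simple four-dimensional 4-Venn diagrams with different numbers of edges

All definitions are in `Pool/Agent/H11/Venn/Defs.lean`. The question Q1 is answered in the
negative: for `m = n = 4` there is a simple Venn diagram with `32` edges (four round spheres
`|p|^2 = 1 + p_i`) and a simple Venn diagram with `30` edges (four cylinders).
-/

open Set

namespace Pool.Agent.Results.MP_3341d1_co.VennEdges

open Pool.Agent.H11.Venn

/-- There are two simple `4`-dimensional `4`-Venn diagrams `V` and `V'` with `32` and `30` edges.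
Moreover all intersections of at least two surfaces of `V` or of `V'` are unions of finitely many
pairwise disjoint topological spheres of the right dimension, and in both diagrams two points of
a surface which lie on the same sides of all the other surfaces lie on the same edge. Consequently
it is not true that for all `m ≥ 2` and `n ≥ 1` any two simple `m`-dimensional `n`-Venn diagrams
have the same number of edges. -/
theorem result :
    (∃ V V' : Fin 4 → Set (E 4),
      (IsVenn V ∧ IsSimple V) ∧ (IsVenn V' ∧ IsSimple V') ∧
      (∀ I : Finset (Fin 4), 2 ≤ I.card →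
        IsDisjointSphereUnion (4 - I.card) (⋂ i ∈ I, V i) ∧
        IsDisjointSphereUnion (4 - I.card) (⋂ i ∈ I, V' i)) ∧
      (∀ W, W = V ∨ W = V' → ∀ i, ∀ x ∈ free W i, ∀ y ∈ free W i,
        (∀ j, j ≠ i → ∀ b, x ∈ side (W j) b → y ∈ side (W j) b) →
        connectedComponentIn (free W i) x = connectedComponentIn (free W i) y) ∧
      (edges V).encard = 32 ∧ (edges V').encard = 30) ∧
    ¬ ∀ m n : ℕ, 2 ≤ m → 1 ≤ n → ∀ V V' : Fin n → Set (E m),
      IsVenn V → IsSimple V → IsVenn V' → IsSimple V' →
      (edges V).encard = (edges V').encard := by
  refine ⟨⟨RV, CV, venn_RV, venn_CV, fun I hI => ⟨inter_RV' I hI, inter_CV I hI⟩, ?_,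
    encard_edges_RV, encard_edges_CV⟩, ?_⟩
  · rintro W (rfl | rfl) i x hx y hy h
    · exact same_component RB_isBody isPreconnected_piece_RV i x y hx hy h
    · exact same_component CB_isBody isPreconnected_piece_CV i x y hx hy h
  · intro h
    have h1 := h 4 4 (by norm_num) (by norm_num) RV CV venn_RV.1 venn_RV.2 venn_CV.1 venn_CV.2
    rw [encard_edges_RV, encard_edges_CV] at h1
    exact absurd h1 (by decide)

end Pool.Agent.Results.MP_3341d1_co.VennEdges
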